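import Mathlib
import Pool.Agent.Lib.MP_29a61e_co.Defs
import Pool.Agent.Lib.MP_29a61e_co.RP.AA
import Pool.Agent.Lib.MP_29a61e_co.N2.Half

namespace Pool.Agent.Results.MP_29a61e_co.AlmostAll

open Pool.Agent.Lib.MP29a61e

/-- For every `ε > 0` there is a `C` such that for every `n ≥ 1` all but at most `C (n - 1)!` of the
`n!` permutations of `n` letters have a cut-and-paste sorting distance which differs from `n / 2` by
at most `ε n`. -/
theorem result (ε : ℝ) (hε : 0 < ε) : ∃ C : ℕ, ∀ n : ℕ, 1 ≤ n →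
    (Finset.univ.filter (fun π : Equiv.Perm (Fin n) =>
      ε * n < |(sortDist π : ℝ) - n / 2|)).card ≤ C * (n - 1).factorial :=
  Pool.Agent.Lib.MP29a61e.RP.almostAll Pool.Agent.Lib.MP29a61eN.half_main ε hε

end Pool.Agent.Results.MP_29a61e_co.AlmostAll
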