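import Mathlib
import Pool.Agent.Lib.MP_29a61e_co.Defs
import Pool.Agent.Lib.MP_29a61e_co.N2.Half

namespace Pool.Agent.Results.MP_29a61e_co.AsymptoticHalf

open Pool.Agent.Lib.MP29a61e

/-- Cut-and-paste sorting: `M n = n / 2 + o(n)`. Equivalent form (`half_main` in `N2/Half.lean`, with
the known lower bound): for every `ε > 0` and all `n ≥ n0(ε)` every permutation of `n` letters is
sorted by at most `(1/2 + ε) n` cut-and-paste moves. -/
theorem result :
    Filter.Tendsto (fun n : ℕ => (M n : ℝ) / n) Filter.atTop (nhds (1 / 2)) :=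
  Pool.Agent.Lib.MP29a61eN.half_final

end Pool.Agent.Results.MP_29a61e_co.AsymptoticHalf
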