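import Mathlib
import Pool.Agent.Lib.MP_29a61e_co.Defs
import Pool.Agent.Lib.MP_29a61e_co.MAIN

namespace Pool.Agent.Results.MP_29a61e_co.FiveEighths

open Pool.Agent.Lib.MP29a61e

/-- Every permutation of `n` letters can be sorted into the identity with at most `(5 n + 6) / 8`
(rounded down) cut-and-paste moves; so `M n ≤ (5 n + 6) / 8`. -/
theorem result (n : ℕ) :
    (∀ π : Equiv.Perm (Fin n),
      ∃ k, k ≤ (5 * n + 6) / 8 ∧ Steps k (List.ofFn π) (List.finRange n)) ∧
    M n ≤ (5 * n + 6) / 8 := by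
  refine ⟨fun π => ?_, ?_⟩
  · obtain ⟨k, hk, h⟩ := sort358 n π
    exact ⟨k, by omega, h⟩
  · have := M358 n
    omega

end Pool.Agent.Results.MP_29a61e_co.FiveEighths
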